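import Mathlib
import Pool.Agent.Q186.NdB
import Pool.Agent.Q186.NdD

/-!
# MP_f07be6_gt: full answer to Q1 and Q2

* Q1: `μ(n) = 1` for every `n ≥ 4`.
* Q2: true; for every `n ≥ 4` the Frenet frame of every nondegenerate closed curve in `ℝ^n` has
  length `> 2π μ(n)`.

The notions used (all in `ℝ^n = EuclideanSpace ℝ (Fin n)`, closed curves being `2π`-periodic maps):
* `NondegClosed n γ`: `γ` is `C^∞`, `2π`-periodic, and `γ'(t), …, γ^{(n)}(t)` are linearly
  independent for every `t`;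
* `circ n m`: the plane unit circle `(cos mt, sin mt, 0, …, 0)` traversed `m` times;
* `Perturbable n m`: every `C^∞`-neighbourhood of `circ n m` contains a nondegenerate closed curve;
* `frame γ i` (`i = 0, 1, …`): the Frenet frame `e_{i+1}`, Gram-Schmidt orthonormalisation of
  `γ', γ'', …`; `curvature γ i = ⟨e_{i+1}', e_{i+2}⟩ / |γ'|` is `κ_{i+1}`;
* `frameLength γ = ∫ (κ_1² + ⋯ + κ_{n-1}²)^{1/2} |γ'| dt`.
-/

namespace Pool.Agent.Results.MP_f07be6_gt.MuEqualsOne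

open Real Q186.Nd

/-- `μ(n)`: the least `m ≥ 1` such that every `C^∞`-neighbourhood of `c_m` contains a nondegenerate
closed curve in `ℝ^n`. -/
noncomputable def mu (n : ℕ) : ℕ := sInf {m : ℕ | 1 ≤ m ∧ Perturbable n m}

theorem isLeast_one {n : ℕ} (hn : 4 ≤ n) : IsLeast {m : ℕ | 1 ≤ m ∧ Perturbable n m} 1 :=
  ⟨⟨le_rfl, perturbable_one hn⟩, fun _ hm => hm.1⟩

/-- **Answers.** Q1: for every `n ≥ 4` the number `1` is the least `m ≥ 1` such that every
`C^∞`-neighbourhood of `c_m` contains a nondegenerate closed curve, so `μ(n) = 1`.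
Q2: for every `n ≥ 4` and every nondegenerate closed curve in `ℝ^n`, `L(E) > 2π μ(n)`. -/
theorem result :
    (∀ n : ℕ, 4 ≤ n → IsLeast {m : ℕ | 1 ≤ m ∧ Perturbable n m} 1 ∧ mu n = 1) ∧
    (∀ n : ℕ, 4 ≤ n → ∀ γ : ℝ → E n, NondegClosed n γ → 2 * π * (mu n : ℝ) < frameLength γ) := by
  have hmu : ∀ n : ℕ, 4 ≤ n → mu n = 1 := fun n hn => (isLeast_one hn).csInf_eq
  refine ⟨fun n hn => ⟨isLeast_one hn, hmu n hn⟩, ?_⟩
  intro n hn γ hγ
  rw [hmu n hn, Nat.cast_one, mul_one]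
  exact two_pi_lt_frameLength hγ (by omega)

end Pool.Agent.Results.MP_f07be6_gt.MuEqualsOne
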